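import Pool.Agent.H78.LR.Eng2

/-!
# The theorem of Borsuk and Ulam for labels

`bu2`: there is no antisymmetric, locally compatible labelling of the nonzero vectors of `ℝ^D` with
fewer than `D` classes.
-/

namespace Pool.Agent.H13.Frank

open Pool.Agent.H78.LR Pool.Agent.H73.Avr

/-- the nonzero vectors of `ℝ^D` -/
abbrev X0 (D : ℕ) : Type := {x : Fin D → ℝ // x ≠ 0}

/-- negation -/
def ng {D : ℕ} (x : X0 D) : X0 D := ⟨-x.1, neg_ne_zero.2 x.2⟩

theorem ng_iter {D : ℕ} (s : ℕ) (x : X0 D) : (ng^[s] x).1 = (-1 : ℝ) ^ s • x.1 := by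
  induction s with
  | zero => simp
  | succ s ih =>
    rw [Function.iterate_succ_apply']
    show -(ng^[s] x).1 = _
    rw [ih, pow_succ, mul_neg_one, neg_smul]

theorem ng_two {D : ℕ} : (ng (D := D))^[2] = id := by
  funext x
  apply Subtype.ext
  rw [ng_iter]
  simp

/-- the basis vector number `k` -/
def bv (D k : ℕ) : Fin D → ℝ := fun a => if (a : ℕ) = min k (D - 1) then 1 else 0

theorem bv_ne {D : ℕ} (hD : 0 < D) (k : ℕ) : bv D k ≠ 0 := by
  intro h
  have hlt : min k (D - 1) < D := by omega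
  have := congrFun h ⟨min k (D - 1), hlt⟩
  simp [bv] at this

/-- straight line from `x` to the basis vector number `k + 1` -/
def cd {D : ℕ} (k : ℕ) (x : Fin D → ℝ) (τ : ℝ) : Fin D → ℝ := (1 - τ) • x + τ • bv D (k + 1)

open Classical in
/-- the homotopy of step `k` -/
noncomputable def hh2 {D : ℕ} (k : ℕ) (x : X0 D) (t : ℝ) : X0 D :=
  if h : cd k x.1 (max 0 (min 1 t)) ≠ 0 then ⟨cd k x.1 (max 0 (min 1 t)), h⟩ else x

theorem hh2_zero {D : ℕ} (k : ℕ) (x : X0 D) : hh2 k x 0 = x := by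
  have h0 : cd k x.1 (max 0 (min 1 (0 : ℝ))) = x.1 := by simp [cd]
  unfold hh2
  split_ifs with h
  · exact Subtype.ext h0
  · rfl

theorem hh2_one {D : ℕ} (hD : 0 < D) (k : ℕ) (x : X0 D) :
    hh2 k x 1 = ⟨bv D (k + 1), bv_ne hD (k + 1)⟩ := by
  have h0 : cd k x.1 (max 0 (min 1 (1 : ℝ))) = bv D (k + 1) := by simp [cd]
  unfold hh2
  rw [dif_pos (by rw [h0]; exact bv_ne hD _)]
  exact Subtype.ext h0

private theorem step2 {D k : ℕ} (hk : k + 1 < D) (x : X0 D)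
    (hx : ∀ a : Fin D, k < (a : ℕ) → x.1 a = 0) (s : ℕ) (t : ℝ) :
    (hh2 k (ng^[s] x) t).1 = cd k ((-1 : ℝ) ^ s • x.1) (max 0 (min 1 t)) ∧
    ∀ a : Fin D, k + 1 < (a : ℕ) → (hh2 k (ng^[s] x) t).1 a = 0 := by
  generalize hτ : max 0 (min 1 t) = τ at *
  have hb : ∀ a : Fin D, bv D (k + 1) a = if (a : ℕ) = k + 1 then 1 else 0 := by
    intro a
    unfold bv
    rw [min_eq_left (by omega)]
  have hnz : cd k (ng^[s] x).1 τ ≠ 0 := by
    intro h
    by_cases h0 : τ = 0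
    · subst h0
      apply (ng^[s] x).2
      refine Eq.trans ?_ h
      simp [cd]
    · have h1 := congrFun h ⟨k + 1, hk⟩
      rw [ng_iter] at h1
      simp only [cd, Pi.add_apply, Pi.smul_apply, smul_eq_mul, Pi.zero_apply] at h1
      rw [hx ⟨k + 1, hk⟩ (Nat.lt_succ_self k), hb, if_pos rfl] at h1
      apply h0
      linarith
  have hval : (hh2 k (ng^[s] x) t).1 = cd k (ng^[s] x).1 τ := by
    unfold hh2
    simp only [hτ]
    rw [dif_pos hnz]
  rw [ng_iter] at hval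
  refine ⟨hval, fun a ha => ?_⟩
  rw [hval]
  simp only [cd, Pi.add_apply, Pi.smul_apply, smul_eq_mul]
  rw [hx a (by omega), hb, if_neg (by omega)]
  ring

private theorem all2 {D : ℕ} (hD : 0 < D) (k : ℕ) (hk : k < D) (a : ℕ → ℕ) :
    (∀ t, ∀ i : Fin D, k < (i : ℕ) → (theta' hh2 ng (⟨bv D 0, bv_ne hD 0⟩ : X0 D) k a t).1 i = 0) ∧
    Continuous (fun t => (theta' hh2 ng (⟨bv D 0, bv_ne hD 0⟩ : X0 D) k a t).1) := by
  induction k with
  | zero =>
    refine ⟨fun t i hi => ?_, continuous_const⟩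
    show bv D 0 i = 0
    unfold bv
    rw [if_neg (by omega)]
  | succ k ih =>
    obtain ⟨ih1, ih2⟩ := ih (by omega)
    have hst := fun t : ℕ → ℝ => step2 hk
      (theta' hh2 ng (⟨bv D 0, bv_ne hD 0⟩ : X0 D) k a t) (ih1 t) (a k) (t k)
    refine ⟨fun t => (hst t).2, ?_⟩
    have h1 : (fun t => (theta' hh2 ng (⟨bv D 0, bv_ne hD 0⟩ : X0 D) (k + 1) a t).1) =
        fun t : ℕ → ℝ => cd k ((-1 : ℝ) ^ (a k) •
          (theta' hh2 ng (⟨bv D 0, bv_ne hD 0⟩ : X0 D) k a t).1) (max 0 (min 1 (t k))) := by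
      funext t
      exact (hst t).1
    rw [h1]
    have hτc : Continuous fun t : ℕ → ℝ => max 0 (min 1 (t k)) :=
      continuous_const.max (continuous_const.min (continuous_apply k))
    have h2 : Continuous fun t : ℕ → ℝ => (-1 : ℝ) ^ (a k) •
          (theta' hh2 ng (⟨bv D 0, bv_ne hD 0⟩ : X0 D) k a t).1 :=
      (continuous_const_smul ((-1 : ℝ) ^ (a k))).comp ih2
    unfold cd
    exact ((continuous_const.sub hτc).smul h2).add (hτc.smul continuous_const)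

/-- **Borsuk-Ulam for labels.** An antisymmetric labelling of the nonzero vectors of `ℝ^D` by
`ℤ/2 × {0, ..., M - 1}`, `M < D`, such that any two labels near a point which have the same class
have the same sign, does not exist. -/
theorem bu2 {D M : ℕ} (hMD : M < D) (ℓ : X0 D → ZMod 2 × ℕ)
    (hodd : ∀ x, ℓ (ng x) = ((ℓ x).1 + 1, (ℓ x).2)) (hM : ∀ x, (ℓ x).2 < M)
    (hloc : ∀ x, ∃ U : Set (X0 D), IsOpen U ∧ x ∈ U ∧ ∀ y ∈ U, ∀ z ∈ U, Compat (ℓ y) (ℓ z)) :
    False := by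
  have hD : 0 < D := by omega
  exact engine' (q := 2) one_lt_two M ng_two ℓ hodd hM hloc hh2 (⟨bv D 0, bv_ne hD 0⟩ : X0 D)
    (fun k => ⟨bv D (k + 1), bv_ne hD (k + 1)⟩) hh2_zero (hh2_one hD)
    (fun k hk a _ => continuous_induced_rng.2 (all2 hD k (by omega) a).2)

/-- the same for a finite dimensional space -/
theorem buV {V : Type*} [NormedAddCommGroup V] [NormedSpace ℝ V] [FiniteDimensional ℝ V]
    {M : ℕ} (hMD : M < Module.finrank ℝ V) (ℓ : V → ZMod 2 × ℕ)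
    (hodd : ∀ d, d ≠ 0 → ℓ (-d) = ((ℓ d).1 + 1, (ℓ d).2)) (hM : ∀ d, d ≠ 0 → (ℓ d).2 < M)
    (hloc : ∀ d, d ≠ 0 → ∃ U : Set V, IsOpen U ∧ d ∈ U ∧
      ∀ y ∈ U, ∀ z ∈ U, y ≠ 0 → z ≠ 0 → Compat (ℓ y) (ℓ z)) : False := by
  let e : V ≃L[ℝ] (Fin (Module.finrank ℝ V) → ℝ) := (Module.finBasis ℝ V).equivFunL
  have hne : ∀ x : X0 (Module.finrank ℝ V), e.symm x.1 ≠ 0 := by
    intro x h
    apply x.2
    have := congrArg e h
    simpa using this
  refine bu2 hMD (fun x => ℓ (e.symm x.1)) ?_ ?_ ?_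
  · intro x
    show ℓ (e.symm (-x.1)) = _
    rw [map_neg]
    exact hodd _ (hne x)
  · intro x
    exact hM _ (hne x)
  · intro x
    obtain ⟨U, hU, hxU, h⟩ := hloc _ (hne x)
    refine ⟨(fun x : X0 (Module.finrank ℝ V) => e.symm x.1) ⁻¹' U, ?_, hxU, ?_⟩
    · exact hU.preimage (e.symm.continuous.comp continuous_subtype_val)
    · intro y hy z hz
      exact h _ hy _ hz (hne y) (hne z)

end Pool.Agent.H13.Frank
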