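import Pool.Agent.H13.Frank.BU2

/-!
# Tucker's lemma for centrally symmetric polytopes, labels on the faces

`V` is a finite dimensional real inner product space, `v : I → V` a finite family of points closed
under negation (`v (s i) = -v i`). The faces of the polytope `conv (v i)` are the sets
`fc v d` of the indices `i` which maximise `⟪v i, d⟫`, `d ≠ 0`.
-/

namespace Pool.Agent.H13.Frank

open Pool.Agent.H73.Avr

variable {V : Type*} [NormedAddCommGroup V] [InnerProductSpace ℝ V]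
variable {I : Type*} [Fintype I]

open Classical in
/-- the face in direction `d`, as a set of indices -/
noncomputable def fc (v : I → V) (d : V) : Finset I :=
  Finset.univ.filter fun i => ∀ j, inner ℝ (v j) d ≤ inner ℝ (v i) d

theorem mem_fc {v : I → V} {d : V} {i : I} :
    i ∈ fc v d ↔ ∀ j, inner ℝ (v j) d ≤ inner ℝ (v i) d := by
  classical
  simp [fc]

variable [Nonempty I]

/-- the maximum -/
noncomputable def mx (v : I → V) (d : V) : ℝ :=
  Finset.univ.sup' Finset.univ_nonempty fun i => inner ℝ (v i) d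

theorem le_mx (v : I → V) (d : V) (i : I) : inner ℝ (v i) d ≤ mx v d :=
  Finset.le_sup' (fun i => inner ℝ (v i) d) (Finset.mem_univ i)

theorem mx_att (v : I → V) (d : V) : ∃ i, mx v d = inner ℝ (v i) d := by
  obtain ⟨i, _, hi⟩ := Finset.exists_mem_eq_sup' Finset.univ_nonempty fun i => inner ℝ (v i) d
  exact ⟨i, hi⟩

theorem mx_cont (v : I → V) : Continuous (mx v) := by
  unfold mx
  apply Continuous.finset_sup'_apply
  intro i _
  exact continuous_const.inner continuous_id

/-- the gap -/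
noncomputable def gp (v : I → V) (d : V) (i : I) : ℝ := mx v d - inner ℝ (v i) d

theorem gp_nonneg (v : I → V) (d : V) (i : I) : 0 ≤ gp v d i := sub_nonneg.2 (le_mx v d i)

theorem gp_cont (v : I → V) (i : I) : Continuous fun d => gp v d i :=
  (mx_cont v).sub (continuous_const.inner continuous_id)

open Classical in
/-- a nonempty set of indices which is not a face is not detected by the gaps -/
theorem face_lemma (v : I → V) [FiniteDimensional ℝ V] (T : Finset I) (hT : T.Nonempty)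
    (hT1 : T ≠ Finset.univ) (hno : ∀ d : V, d ≠ 0 → fc v d ≠ T) :
    ∃ C : ℝ, 0 ≤ C ∧ ∀ d : V, ∃ y ∉ T, ∃ x ∈ T, gp v d y ≤ C * gp v d x := by
  obtain ⟨x0, hx0⟩ := hT
  let K : Set V := convexHull ℝ (Set.range fun y : {y // y ∉ T} => v x0 - v y)
  let S : Submodule ℝ V := Submodule.span ℝ (Set.range fun x : {x // x ∈ T} => v x0 - v x)
  have hKc : IsCompact K := (Set.finite_range _).isCompact_convexHull ℝ
  have hSc : IsClosed (S : Set V) := S.closed_of_finiteDimensional
  obtain ⟨y0, hy0⟩ : ∃ y, y ∉ T := by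
    by_contra h
    push Not at h
    exact hT1 (Finset.eq_univ_iff_forall.2 h)
  -- the two sets meet
  have hmeet : ∃ w, w ∈ K ∧ w ∈ S := by
    by_contra h
    push Not at h
    have hdis : Disjoint K (S : Set V) := Set.disjoint_left.2 fun w h1 h2 => h w h1 h2
    obtain ⟨f, u, u', h1, h2, h3⟩ := geometric_hahn_banach_compact_closed
      (convex_convexHull ℝ _) hKc S.convex hSc hdis
    have h4 : ∀ b ∈ S, f b = 0 := by
      intro b hb
      by_contra hne
      have h5 := h3 (((u' - 1) / f b) • b) (S.smul_mem _ hb)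
      rw [map_smul, smul_eq_mul, div_mul_cancel₀ _ hne] at h5
      linarith
    have hu' : u' < 0 := by
      have := h3 0 S.zero_mem
      rwa [map_zero] at this
    obtain ⟨w, hw⟩ : ∃ w : V, ∀ x, f x = inner ℝ w x := ⟨(InnerProductSpace.toDual ℝ V).symm f,
      fun x => by rw [InnerProductSpace.toDual_symm_apply]⟩
    have hx : ∀ x ∈ T, inner ℝ (v x) (-w) = inner ℝ (v x0) (-w) := by
      intro x hx
      have h5 := h4 (v x0 - v x) (Submodule.subset_span ⟨⟨x, hx⟩, rfl⟩)
      rw [hw, inner_sub_right] at h5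
      rw [inner_neg_right, inner_neg_right, real_inner_comm, real_inner_comm w (v x0)]
      linarith
    have hy : ∀ y ∉ T, inner ℝ (v y) (-w) < inner ℝ (v x0) (-w) := by
      intro y hy
      have h5 := h1 (v x0 - v y) (subset_convexHull ℝ _ ⟨⟨y, hy⟩, rfl⟩)
      rw [hw, inner_sub_right] at h5
      rw [inner_neg_right, inner_neg_right, real_inner_comm, real_inner_comm w (v x0)]
      linarith
    apply hno (-w)
    · intro h5
      have := hy y0 hy0
      rw [h5] at this
      simp at this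
    · ext i
      rw [mem_fc]
      constructor
      · intro h5
        by_contra h6
        exact absurd (h5 x0) (not_le.2 (hy i h6))
      · intro h5 j
        rw [hx i h5]
        by_cases h6 : j ∈ T
        · exact (hx j h6).le
        · exact (hy j h6).le
  obtain ⟨w, hwK, hwS⟩ := hmeet
  -- elements of `S` are controlled by the gaps on `T`
  have hS : ∀ a ∈ S, ∃ C : ℝ, 0 ≤ C ∧ ∀ d : V, |inner ℝ a d| ≤ C * ∑ x ∈ T, gp v d x := by
    intro a ha
    induction ha using Submodule.span_induction with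
    | mem a ha =>
      obtain ⟨⟨x, hx⟩, rfl⟩ := ha
      refine ⟨1, zero_le_one, fun d => ?_⟩
      rw [one_mul, inner_sub_left]
      have h1 : gp v d x ≤ ∑ x ∈ T, gp v d x :=
        Finset.single_le_sum (fun i _ => gp_nonneg v d i) hx
      have h2 : gp v d x0 ≤ ∑ x ∈ T, gp v d x :=
        Finset.single_le_sum (fun i _ => gp_nonneg v d i) hx0
      have h3 := gp_nonneg v d x
      have h4 := gp_nonneg v d x0
      unfold gp at h1 h2 h3 h4 ⊢
      rw [abs_le]
      constructor <;> linarith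
    | zero => exact ⟨0, le_rfl, fun d => by simp⟩
    | add a b _ _ iha ihb =>
      obtain ⟨C1, h1, h2⟩ := iha
      obtain ⟨C2, h3, h4⟩ := ihb
      refine ⟨C1 + C2, add_nonneg h1 h3, fun d => ?_⟩
      rw [inner_add_left, add_mul]
      exact (abs_add_le _ _).trans (add_le_add (h2 d) (h4 d))
    | smul c a _ iha =>
      obtain ⟨C1, h1, h2⟩ := iha
      refine ⟨|c| * C1, mul_nonneg (abs_nonneg c) h1, fun d => ?_⟩
      rw [real_inner_smul_left, abs_mul, mul_assoc]
      exact mul_le_mul_of_nonneg_left (h2 d) (abs_nonneg c)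
  obtain ⟨C, hC, hCb⟩ := hS w hwS
  refine ⟨(C + 1) * T.card, by positivity, fun d => ?_⟩
  obtain ⟨x, hxT, hx⟩ := Finset.exists_max_image T (fun i => gp v d i) ⟨x0, hx0⟩
  obtain ⟨y, hyT, hy⟩ := Finset.exists_min_image (Finset.univ.filter fun y => y ∉ T)
    (fun i => gp v d i) ⟨y0, by simpa using hy0⟩
  have hyT' : y ∉ T := by simpa using hyT
  refine ⟨y, hyT', x, hxT, ?_⟩
  have h1 : gp v d y - gp v d x0 ≤ inner ℝ w d := by
    have hconv : Convex ℝ {a : V | gp v d y - gp v d x0 ≤ inner ℝ a d} := by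
      intro a ha b hb s t hs ht hst
      show _ ≤ inner ℝ (s • a + t • b) d
      rw [inner_add_left, real_inner_smul_left, real_inner_smul_left]
      have ha' : gp v d y - gp v d x0 ≤ inner ℝ a d := ha
      have hb' : gp v d y - gp v d x0 ≤ inner ℝ b d := hb
      calc gp v d y - gp v d x0 = s * (gp v d y - gp v d x0) + t * (gp v d y - gp v d x0) := by
            rw [← add_mul, hst, one_mul]
        _ ≤ _ := add_le_add (mul_le_mul_of_nonneg_left ha' hs) (mul_le_mul_of_nonneg_left hb' ht)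
    refine (convexHull_min ?_ hconv) hwK
    rintro _ ⟨⟨z, hz⟩, rfl⟩
    show _ ≤ inner ℝ (v x0 - v z) d
    have := hy z (by simpa using hz)
    rw [inner_sub_left]
    unfold gp at this ⊢
    linarith
  have h2 : inner ℝ w d ≤ C * ∑ x ∈ T, gp v d x := (le_abs_self _).trans (hCb d)
  have h3 : gp v d x0 ≤ ∑ x ∈ T, gp v d x :=
    Finset.single_le_sum (fun i _ => gp_nonneg v d i) hx0
  have h4 : ∑ x ∈ T, gp v d x ≤ T.card * gp v d x := by
    have := Finset.sum_le_card_nsmul T (fun i => gp v d i) (gp v d x) hx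
    simpa using this
  calc gp v d y ≤ (C + 1) * ∑ x ∈ T, gp v d x := by rw [add_mul, one_mul]; linarith
    _ ≤ (C + 1) * (T.card * gp v d x) := mul_le_mul_of_nonneg_left h4 (by linarith)
    _ = (C + 1) * T.card * gp v d x := by ring

/-- one constant for all sets of indices -/
theorem face_const [FiniteDimensional ℝ V] (v : I → V) : ∃ C : ℝ, 0 ≤ C ∧ ∀ T : Finset I,
    T.Nonempty → T ≠ Finset.univ → (∀ d : V, d ≠ 0 → fc v d ≠ T) →
    ∀ d : V, ∃ y ∉ T, ∃ x ∈ T, gp v d y ≤ C * gp v d x := by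
  classical
  have h : ∀ T : Finset I, ∃ C : ℝ, 0 ≤ C ∧ (T.Nonempty → T ≠ Finset.univ →
      (∀ d : V, d ≠ 0 → fc v d ≠ T) → ∀ d : V, ∃ y ∉ T, ∃ x ∈ T, gp v d y ≤ C * gp v d x) := by
    intro T
    by_cases hT : T.Nonempty ∧ T ≠ Finset.univ ∧ ∀ d : V, d ≠ 0 → fc v d ≠ T
    · obtain ⟨C, hC, h⟩ := face_lemma v T hT.1 hT.2.1 hT.2.2
      exact ⟨C, hC, fun _ _ _ => h⟩
    · exact ⟨0, le_rfl, fun h1 h2 h3 => absurd ⟨h1, h2, h3⟩ hT⟩
  choose C hC h using h
  refine ⟨∑ T, C T, Finset.sum_nonneg fun T _ => hC T, fun T h1 h2 h3 d => ?_⟩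
  obtain ⟨y, hy, x, hx, h4⟩ := h T h1 h2 h3 d
  refine ⟨y, hy, x, hx, h4.trans ?_⟩
  exact mul_le_mul_of_nonneg_right
    (Finset.single_le_sum (f := C) (fun i _ => hC i) (Finset.mem_univ T)) (gp_nonneg v d x)

open Classical in
/-- the indices whose gap is less than `ε` times the maximum -/
noncomputable def lv (v : I → V) (ε : ℝ) (d : V) : Finset I :=
  Finset.univ.filter fun i => gp v d i < ε * mx v d

theorem mem_lv {v : I → V} {ε : ℝ} {d : V} {i : I} : i ∈ lv v ε d ↔ gp v d i < ε * mx v d := by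
  classical
  simp [lv]

theorem lv_mono {v : I → V} {ε ε' : ℝ} {d : V} (h : ε ≤ ε') (hN : 0 < mx v d) :
    lv v ε d ⊆ lv v ε' d := by
  intro i hi
  rw [mem_lv] at hi ⊢
  exact hi.trans_le (mul_le_mul_of_nonneg_right h hN.le)

theorem lv_nonempty {v : I → V} {ε : ℝ} {d : V} (h : 0 < ε) (hN : 0 < mx v d) :
    (lv v ε d).Nonempty := by
  obtain ⟨i, hi⟩ := mx_att v d
  refine ⟨i, mem_lv.2 ?_⟩
  unfold gp
  rw [← hi, sub_self]
  exact mul_pos h hN

theorem lv_ne_univ {v : I → V} {s : I → I} (hv : ∀ i, v (s i) = -v i) {ε : ℝ} {d : V} (h : ε ≤ 1)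
    (hN : 0 < mx v d) : lv v ε d ≠ Finset.univ := by
  intro h1
  obtain ⟨i, hi⟩ := mx_att v d
  have h2 : s i ∈ lv v ε d := by rw [h1]; exact Finset.mem_univ _
  rw [mem_lv] at h2
  unfold gp at h2
  rw [hv, inner_neg_left, ← hi] at h2
  have h3 : ε * mx v d ≤ 1 * mx v d := mul_le_mul_of_nonneg_right h hN.le
  linarith

theorem exj (v : I → V) (ε : ℕ → ℝ) (d : V) : ∃ j : ℕ, (lv v (ε (j + 1)) d).card ≤ j + 1 :=
  ⟨Fintype.card I, (Finset.card_le_univ _).trans (Nat.le_succ _)⟩

/-- the index of the stable level -/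
noncomputable def jj (v : I → V) (ε : ℕ → ℝ) (d : V) : ℕ := Nat.find (exj v ε d)

/-- the stable level -/
noncomputable def TT (v : I → V) (ε : ℕ → ℝ) (d : V) : Finset I := lv v (ε (jj v ε d + 1)) d

theorem jj_le (v : I → V) (ε : ℕ → ℝ) (d : V) : jj v ε d ≤ Fintype.card I :=
  Nat.find_min' _ ((Finset.card_le_univ _).trans (Nat.le_succ _))

theorem TT_eq {v : I → V} {ε : ℕ → ℝ} (hpos : ∀ j, 0 < ε j) (hmono : ∀ j, ε j ≤ ε (j + 1)) {d : V}
    (hN : 0 < mx v d) : lv v (ε (jj v ε d)) d = TT v ε d := by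
  unfold TT
  apply Finset.eq_of_subset_of_card_le (lv_mono (hmono _) hN)
  have h1 : (lv v (ε (jj v ε d + 1)) d).card ≤ jj v ε d + 1 := Nat.find_spec (exj v ε d)
  refine h1.trans ?_
  rcases Nat.eq_zero_or_pos (jj v ε d) with h0 | h0
  · rw [h0]
    exact Finset.card_pos.2 (lv_nonempty (hpos 0) hN)
  · have h2 := Nat.find_min (exj v ε d) (m := jj v ε d - 1) (Nat.sub_lt h0 one_pos)
    have h3 : jj v ε d - 1 + 1 = jj v ε d := by omega
    rw [h3] at h2
    omega

/-- the stable level is a face -/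
theorem TT_face [FiniteDimensional ℝ V] {v : I → V} {s : I → I} (hv : ∀ i, v (s i) = -v i)
    {ε : ℕ → ℝ} {C : ℝ}
    (hC : ∀ T : Finset I, T.Nonempty → T ≠ Finset.univ → (∀ d : V, d ≠ 0 → fc v d ≠ T) →
      ∀ d : V, ∃ y ∉ T, ∃ x ∈ T, gp v d y ≤ C * gp v d x) (hC0 : 0 ≤ C)
    (hpos : ∀ j, 0 < ε j) (hstep : ∀ j, ε (j + 1) = (C + 2) * ε j)
    (hle : ∀ j ≤ Fintype.card I + 1, ε j ≤ 1) {d : V}
    (hN : 0 < mx v d) : ∃ d' : V, d' ≠ 0 ∧ fc v d' = TT v ε d := by
  by_contra hcon
  push Not at hcon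
  have hmono : ∀ j, ε j ≤ ε (j + 1) := by
    intro j
    rw [hstep]
    have := hpos j
    nlinarith
  have hj := jj_le v ε d
  obtain ⟨y, hy, x, hx, h⟩ := hC (TT v ε d) (lv_nonempty (hpos _) hN)
    (lv_ne_univ hv (hle _ (by omega)) hN) hcon d
  rw [← TT_eq hpos hmono hN, mem_lv] at hx
  unfold TT at hy
  rw [mem_lv, not_lt, hstep] at hy
  have h1 := hpos (jj v ε d)
  have h2 : 0 < ε (jj v ε d) * mx v d := mul_pos h1 hN
  have h3 : C * gp v d x ≤ C * (ε (jj v ε d) * mx v d) := mul_le_mul_of_nonneg_left hx.le hC0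
  nlinarith

theorem mx_neg {v : I → V} {s : I → I} (hv : ∀ i, v (s i) = -v i) (d : V) :
    mx v (-d) = mx v d := by
  have key : ∀ d, mx v (-d) ≤ mx v d := by
    intro d
    obtain ⟨i, hi⟩ := mx_att v (-d)
    rw [hi, inner_neg_right, ← inner_neg_left, ← hv]
    exact le_mx v d _
  apply le_antisymm (key d)
  have := key (-d)
  rwa [neg_neg] at this

theorem gp_neg {v : I → V} {s : I → I} (hv : ∀ i, v (s i) = -v i) (d : V) (i : I) :
    gp v (-d) i = gp v d (s i) := by
  unfold gp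
  rw [mx_neg hv, hv, inner_neg_right, inner_neg_left]

theorem lv_neg {v : I → V} {s : I → I} (hv : ∀ i, v (s i) = -v i) (ε : ℝ) (d : V) (i : I) :
    i ∈ lv v ε (-d) ↔ s i ∈ lv v ε d := by
  rw [mem_lv, mem_lv, gp_neg hv, mx_neg hv]

omit [Nonempty I] in
theorem fc_neg {v : I → V} {s : I → I} (hv : ∀ i, v (s i) = -v i)
    (d : V) (i : I) : i ∈ fc v (-d) ↔ s i ∈ fc v d := by
  rw [mem_fc, mem_fc]
  constructor
  · intro h j
    have := h (s j)
    rw [hv, inner_neg_right, inner_neg_right, inner_neg_left] at this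
    rw [hv, inner_neg_left]
    linarith
  · intro h j
    have := h (s j)
    rw [hv, hv, inner_neg_left, inner_neg_left] at this
    rw [inner_neg_right, inner_neg_right]
    exact this

theorem card_lv_neg {v : I → V} {s : I → I} (hs : Function.Involutive s)
    (hv : ∀ i, v (s i) = -v i) (ε : ℝ) (d : V) : (lv v ε (-d)).card = (lv v ε d).card := by
  apply Finset.card_nbij' s s
  · intro i hi
    exact (lv_neg hv ε d i).1 hi
  · intro i hi
    refine (lv_neg hv ε d (s i)).2 ?_
    rw [hs i]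
    exact hi
  · intro i _
    exact hs i
  · intro i _
    exact hs i

theorem jj_neg {v : I → V} {s : I → I} (hs : Function.Involutive s)
    (hv : ∀ i, v (s i) = -v i) (ε : ℕ → ℝ) (d : V) : jj v ε (-d) = jj v ε d := by
  unfold jj
  congr 1
  funext j
  rw [card_lv_neg hs hv]

theorem TT_neg {v : I → V} {s : I → I} (hs : Function.Involutive s)
    (hv : ∀ i, v (s i) = -v i) (ε : ℕ → ℝ) (d : V) (i : I) :
    i ∈ TT v ε (-d) ↔ s i ∈ TT v ε d := by
  unfold TT
  rw [jj_neg hs hv]
  exact lv_neg hv _ d i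

/-- near a direction the stable level is a level of this direction -/
theorem TT_loc {v : I → V} {ε : ℕ → ℝ} (hpos : ∀ j, 0 < ε j) (hstep : ∀ j, ε j < ε (j + 1))
    {d0 : V} (hN : 0 < mx v d0) : ∃ U : Set V, IsOpen U ∧ d0 ∈ U ∧
      ∀ d ∈ U, 0 < mx v d → TT v ε d = lv v (ε (jj v ε d + 1)) d0 := by
  have h1 : ∀ᶠ d in nhds d0, ∀ (i : I) (j : Fin (Fintype.card I + 2)),
      (i ∈ lv v (ε j) d0 → i ∈ lv v (ε j) d) ∧ (i ∉ lv v (ε (j + 1)) d0 → i ∉ lv v (ε j) d) := by
    rw [Filter.eventually_all]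
    intro i
    rw [Filter.eventually_all]
    intro j
    have hc1 : Continuous fun d => gp v d i := gp_cont v i
    have hc2 : Continuous fun d => ε j * mx v d := continuous_const.mul (mx_cont v)
    refine Filter.Eventually.and ?_ ?_
    · by_cases h : i ∈ lv v (ε j) d0
      · rw [mem_lv] at h
        have : ∀ᶠ d in nhds d0, gp v d i < ε j * mx v d :=
          (isOpen_lt hc1 hc2).mem_nhds h
        exact this.mono fun d hd _ => mem_lv.2 hd
      · exact Filter.Eventually.of_forall fun d h' => absurd h' h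
    · by_cases h : i ∈ lv v (ε (j + 1)) d0
      · exact Filter.Eventually.of_forall fun d h' => absurd h h'
      · rw [mem_lv, not_lt] at h
        have h2 : ε j * mx v d0 < gp v d0 i :=
          (mul_lt_mul_of_pos_right (hstep j) hN).trans_le h
        have : ∀ᶠ d in nhds d0, ε j * mx v d < gp v d i :=
          (isOpen_lt hc2 hc1).mem_nhds h2
        exact this.mono fun d hd _ h3 => absurd (mem_lv.1 h3) (not_lt.2 hd.le)
  obtain ⟨U, hU, hUo, hd0⟩ := eventually_nhds_iff.1 h1
  refine ⟨U, hUo, hd0, fun d hd hNd => ?_⟩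
  have hj := jj_le v ε d
  have h2 := TT_eq hpos (fun j => (hstep j).le) hNd
  apply Finset.Subset.antisymm
  · intro i hi
    by_contra h3
    have h4 := (hU d hd i ⟨jj v ε d, by omega⟩).2 h3
    rw [h2] at h4
    exact h4 hi
  · intro i hi
    exact (hU d hd i ⟨jj v ε d + 1, by omega⟩).1 hi

/-- **Tucker's lemma for the faces of a centrally symmetric polytope.** -/
theorem tucker [FiniteDimensional ℝ V] (v : I → V) (s : I → I) (hs : Function.Involutive s)
    (hv : ∀ i, v (s i) = -v i) {M : ℕ} (hM : M < Module.finrank ℝ V)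
    (L : Finset I → ZMod 2 × ℕ)
    (hlt : ∀ d : V, d ≠ 0 → (L (fc v d)).2 < M)
    (hodd : ∀ d : V, d ≠ 0 → L (fc v (-d)) = ((L (fc v d)).1 + 1, (L (fc v d)).2))
    (hc : ∀ d d' : V, d ≠ 0 → d' ≠ 0 → fc v d ⊆ fc v d' →
      Compat (L (fc v d)) (L (fc v d'))) : False := by
  by_cases hN : ∀ d : V, d ≠ 0 → 0 < mx v d
  swap
  · -- degenerate case
    push Not at hN
    obtain ⟨d, hd, hN⟩ := hN
    have h1 : ∀ i, inner ℝ (v i) d = 0 := by
      intro i
      have h2 := (le_mx v d i).trans hN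
      have h3 := (le_mx v d (s i)).trans hN
      rw [hv, inner_neg_left] at h3
      linarith
    have h2 : fc v d = fc v (-d) := by
      ext i
      rw [mem_fc, mem_fc]
      simp [h1]
    have h3 := hodd d hd
    rw [← h2] at h3
    have h4 := congrArg Prod.fst h3
    simp at h4
  obtain ⟨C, hC0, hC⟩ := face_const v
  set m := Fintype.card I with hm
  let ε : ℕ → ℝ := fun j => (C + 2) ^ j / (C + 2) ^ (m + 1)
  have hB : (1 : ℝ) < C + 2 := by linarith
  have hpos : ∀ j, 0 < ε j := fun j => by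
    have : (0 : ℝ) < C + 2 := by linarith
    positivity
  have hstep : ∀ j, ε (j + 1) = (C + 2) * ε j := fun j => by
    simp only [ε]
    rw [pow_succ]
    ring
  have hlt' : ∀ j, ε j < ε (j + 1) := by
    intro j
    rw [hstep]
    have := hpos j
    nlinarith
  have hle : ∀ j ≤ m + 1, ε j ≤ 1 := by
    intro j hj
    simp only [ε]
    rw [div_le_one (by positivity)]
    exact pow_le_pow_right₀ hB.le hj
  have hface : ∀ d : V, d ≠ 0 → ∃ d' : V, d' ≠ 0 ∧ fc v d' = TT v ε d := fun d hd =>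
    TT_face hv hC hC0 hpos hstep hle (hN d hd)
  refine buV hM (fun d => L (TT v ε d)) ?_ ?_ ?_
  · intro d hd
    obtain ⟨d', hd', h⟩ := hface d hd
    have h2 : TT v ε (-d) = fc v (-d') := by
      ext i
      rw [TT_neg hs hv, fc_neg hv, h]
    show L (TT v ε (-d)) = ((L (TT v ε d)).1 + 1, (L (TT v ε d)).2)
    rw [h2, ← h]
    exact hodd d' hd'
  · intro d hd
    obtain ⟨d', hd', h⟩ := hface d hd
    show (L (TT v ε d)).2 < M
    rw [← h]
    exact hlt d' hd'
  · intro d0 hd0
    obtain ⟨U, hU, hdU, hUT⟩ := TT_loc hpos hlt' (hN d0 hd0)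
    refine ⟨U, hU, hdU, ?_⟩
    have key : ∀ y ∈ U, ∀ z ∈ U, y ≠ 0 → z ≠ 0 → jj v ε y ≤ jj v ε z →
        Compat (L (TT v ε y)) (L (TT v ε z)) := by
      intro y hy z hz hy0 hz0 hyz
      obtain ⟨y', hy', h1⟩ := hface y hy0
      obtain ⟨z', hz', h2⟩ := hface z hz0
      have h3 : TT v ε y ⊆ TT v ε z := by
        rw [hUT y hy (hN y hy0), hUT z hz (hN z hz0)]
        apply lv_mono _ (hN d0 hd0)
        exact (monotone_nat_of_le_succ fun j => (hlt' j).le) (by omega)
      rw [← h1, ← h2] at h3 ⊢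
      exact hc y' z' hy' hz' h3
    intro y hy z hz hy0 hz0
    rcases le_total (jj v ε y) (jj v ε z) with h | h
    · exact key y hy z hz hy0 hz0 h
    · intro h1
      exact (key z hz y hy hz0 hy0 h h1.symm).symm

end Pool.Agent.H13.Frank
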